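import Pool.Agent.Helper479.Sink.Faces

/-!
MP_bf58c1_co, Q1, in a stronger form: there is a shortest-path triangulation of the sphere none of
whose images under the linear automorphisms of space (followed by the radial projection back to the
sphere) is sinkable, not only none of its rotations.
-/

namespace Pool.Agent.Results.MP_bf58c1_co.NoLinearImage

open Helper479.Sink Set Filter Topology

/-- Euclidean length -/
noncomputable def nrm (x : Fin 3 → ℝ) : ℝ := Real.sqrt (x 0 ^ 2 + x 1 ^ 2 + x 2 ^ 2)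

/-- The radial projection of a nonzero vector to the unit sphere. -/
noncomputable def radial (x : Fin 3 → ℝ) : Fin 3 → ℝ :=
  (Real.sqrt (x 0 ^ 2 + x 1 ^ 2 + x 2 ^ 2))⁻¹ • x

lemma sq_pos_of_ne {x : Fin 3 → ℝ} (hx : x ≠ 0) : 0 < x 0 ^ 2 + x 1 ^ 2 + x 2 ^ 2 := by
  by_contra hcon
  push Not at hcon
  apply hx
  have h0 : x 0 = 0 := by nlinarith [sq_nonneg (x 0), sq_nonneg (x 1), sq_nonneg (x 2)]
  have h1 : x 1 = 0 := by nlinarith [sq_nonneg (x 0), sq_nonneg (x 1), sq_nonneg (x 2)]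
  have h2 : x 2 = 0 := by nlinarith [sq_nonneg (x 0), sq_nonneg (x 1), sq_nonneg (x 2)]
  ext i
  fin_cases i
  · exact h0
  · exact h1
  · exact h2

lemma nrm_pos {x : Fin 3 → ℝ} (hx : x ≠ 0) : 0 < nrm x := Real.sqrt_pos.mpr (sq_pos_of_ne hx)

lemma nrm_nonneg (x : Fin 3 → ℝ) : 0 ≤ nrm x := Real.sqrt_nonneg _

lemma nrm_zero : nrm 0 = 0 := by simp [nrm]

lemma nrm_smul {c : ℝ} (hc : 0 ≤ c) (x : Fin 3 → ℝ) : nrm (c • x) = c * nrm x := by
  unfold nrm
  have : (c • x) 0 ^ 2 + (c • x) 1 ^ 2 + (c • x) 2 ^ 2 = c ^ 2 * (x 0 ^ 2 + x 1 ^ 2 + x 2 ^ 2) := by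
    simp only [Pi.smul_apply, smul_eq_mul]; ring
  rw [this, Real.sqrt_mul (sq_nonneg c), Real.sqrt_sq hc]

lemma nrm_neg (x : Fin 3 → ℝ) : nrm (-x) = nrm x := by
  unfold nrm; simp

lemma mem_S2 (x : Fin 3 → ℝ) : x ∈ S2 ↔ nrm x = 1 := by
  unfold S2 nrm
  rw [mem_ofPred_eq, Real.sqrt_eq_one]

lemma cont_nrm : Continuous nrm := by unfold nrm; fun_prop

lemma abs_le_nrm (x : Fin 3 → ℝ) (i : Fin 3) : |x i| ≤ nrm x := by
  unfold nrm
  refine Real.abs_le_sqrt ?_
  fin_cases i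
  · change x 0 ^ 2 ≤ _; nlinarith [sq_nonneg (x 1), sq_nonneg (x 2)]
  · change x 1 ^ 2 ≤ _; nlinarith [sq_nonneg (x 0), sq_nonneg (x 2)]
  · change x 2 ^ 2 ≤ _; nlinarith [sq_nonneg (x 1), sq_nonneg (x 0)]

/-- the homogeneous, norm preserving map induced by a linear map -/
noncomputable def Psi (R : Matrix (Fin 3) (Fin 3) ℝ) (x : Fin 3 → ℝ) : Fin 3 → ℝ :=
  (nrm x * (nrm (R.mulVec x))⁻¹) • R.mulVec x

variable {R R' : Matrix (Fin 3) (Fin 3) ℝ}

lemma im_ne (hR : R.det ≠ 0) {x : Fin 3 → ℝ} (hx : x ≠ 0) : R.mulVec x ≠ 0 :=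
  fun h => hx (Matrix.eq_zero_of_mulVec_eq_zero hR h)

lemma Psi_zero : Psi R 0 = 0 := by simp [Psi]

lemma coef_pos (hR : R.det ≠ 0) {x : Fin 3 → ℝ} (hx : x ≠ 0) :
    0 < nrm x * (nrm (R.mulVec x))⁻¹ :=
  mul_pos (nrm_pos hx) (inv_pos.mpr (nrm_pos (im_ne hR hx)))

lemma nrm_Psi (hR : R.det ≠ 0) (x : Fin 3 → ℝ) : nrm (Psi R x) = nrm x := by
  rcases eq_or_ne x 0 with rfl | hx
  · rw [Psi_zero]
  · unfold Psi
    rw [nrm_smul (coef_pos hR hx).le]
    have := (nrm_pos (im_ne hR hx)).ne'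
    field_simp

lemma Psi_neg (x : Fin 3 → ℝ) : Psi R (-x) = - Psi R x := by
  unfold Psi
  rw [Matrix.mulVec_neg, nrm_neg, nrm_neg, smul_neg]

lemma Psi_Psi (hR : R.det ≠ 0) (h : R' * R = 1) (x : Fin 3 → ℝ) : Psi R' (Psi R x) = x := by
  rcases eq_or_ne x 0 with rfl | hx
  · rw [Psi_zero, Psi_zero]
  · have hc := coef_pos hR hx
    have h1 : R'.mulVec (Psi R x) = (nrm x * (nrm (R.mulVec x))⁻¹) • x := by
      unfold Psi
      rw [Matrix.mulVec_smul, Matrix.mulVec_mulVec, h, Matrix.one_mulVec]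
    have h2 : Psi R' (Psi R x) = (nrm (Psi R x) * (nrm (R'.mulVec (Psi R x)))⁻¹) •
        R'.mulVec (Psi R x) := rfl
    rw [h2, nrm_Psi hR, h1, nrm_smul hc.le, smul_smul]
    have hx' := (nrm_pos hx).ne'
    have : nrm x * ((nrm x * (nrm (R.mulVec x))⁻¹) * nrm x)⁻¹ * (nrm x * (nrm (R.mulVec x))⁻¹) = 1 := by
      have h3 := (nrm_pos (im_ne hR hx)).ne'
      field_simp
    rw [this, one_smul]

lemma cont_Psi (hR : R.det ≠ 0) : Continuous (Psi R) := by
  rw [continuous_iff_continuousAt]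
  intro x
  have hmul : Continuous (fun x : Fin 3 → ℝ => R.mulVec x) := by fun_prop
  rcases eq_or_ne x 0 with rfl | hx
  · unfold ContinuousAt
    rw [Psi_zero, tendsto_pi_nhds]
    intro i
    have h0 : Tendsto nrm (𝓝 0) (𝓝 0) := by
      have := cont_nrm.tendsto 0
      rwa [nrm_zero] at this
    refine squeeze_zero_norm (fun y => ?_) h0
    rw [Real.norm_eq_abs]
    exact (abs_le_nrm _ i).trans (nrm_Psi hR y).le
  · have h1 : ContinuousAt (fun y => (nrm (R.mulVec y))⁻¹) x :=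
      ((cont_nrm.comp hmul).continuousAt).inv₀ (nrm_pos (im_ne hR hx)).ne'
    exact (cont_nrm.continuousAt.mul h1).smul hmul.continuousAt

/-- the homeomorphism of space which maps every ray linearly and preserves the norm -/
noncomputable def PsiH (hR : R.det ≠ 0) (hR' : R'.det ≠ 0) (h : R' * R = 1) (h' : R * R' = 1) :
    (Fin 3 → ℝ) ≃ₜ (Fin 3 → ℝ) where
  toFun := Psi R
  invFun := Psi R'
  left_inv := Psi_Psi hR h
  right_inv := Psi_Psi hR' h'
  continuous_toFun := cont_Psi hR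
  continuous_invFun := cont_Psi hR'

lemma arc_sub (hR : R.det ≠ 0) {p q x : Fin 3 → ℝ} (hp : p ≠ 0) (hq : q ≠ 0) (hx : x ∈ arc p q) :
    Psi R x ∈ arc (Psi R p) (Psi R q) := by
  obtain ⟨hxS, a, b, ha, hb, hxe⟩ := hx
  refine ⟨(mem_S2 _).mpr ((nrm_Psi hR x).trans ((mem_S2 x).mp hxS)), ?_⟩
  have cp := coef_pos hR hp
  have cq := coef_pos hR hq
  have cx : 0 ≤ nrm x * (nrm (R.mulVec x))⁻¹ :=
    mul_nonneg (nrm_nonneg _) (inv_nonneg.mpr (nrm_nonneg _))
  refine ⟨(nrm x * (nrm (R.mulVec x))⁻¹) * a * (nrm p * (nrm (R.mulVec p))⁻¹)⁻¹,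
    (nrm x * (nrm (R.mulVec x))⁻¹) * b * (nrm q * (nrm (R.mulVec q))⁻¹)⁻¹,
    by positivity, by positivity, ?_⟩
  have e : Psi R x = (nrm x * (nrm (R.mulVec x))⁻¹) • (a • R.mulVec p + b • R.mulVec q) := by
    have : R.mulVec x = a • R.mulVec p + b • R.mulVec q := by
      conv_lhs => rw [hxe]
      rw [Matrix.mulVec_add, Matrix.mulVec_smul, Matrix.mulVec_smul]
    rw [← this]; rfl
  rw [e]
  unfold Psi
  rw [smul_smul, smul_smul, smul_add, smul_smul, smul_smul, inv_mul_cancel_right₀ cp.ne',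
    inv_mul_cancel_right₀ cq.ne']

/-- transport of a shortest-path triangulation along a homeomorphism of space which preserves the
sphere, the arcs and antipodality -/
lemma spt_transport {n : ℕ} {G : SimpleGraph (Fin n)} {v : Fin n → Fin 3 → ℝ} (h : IsSPT G v)
    (Ψ : (Fin 3 → ℝ) ≃ₜ (Fin 3 → ℝ)) (hS : Ψ '' S2 = S2) (hneg : ∀ x, Ψ (-x) = - Ψ x)
    (harc : ∀ i j, arc (Ψ (v i)) (Ψ (v j)) = Ψ '' arc (v i) (v j)) :
    IsSPT G (fun i => Ψ (v i)) := by
  have hskel : skeleton G (fun i => Ψ (v i)) = Ψ '' skeleton G v := by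
    ext x
    constructor
    · rintro ⟨i, j, hij, hx⟩
      change x ∈ arc (Ψ (v i)) (Ψ (v j)) at hx
      rw [harc] at hx
      obtain ⟨y, hy, rfl⟩ := hx
      exact ⟨y, ⟨i, j, hij, hy⟩, rfl⟩
    · rintro ⟨y, ⟨i, j, hij, hy⟩, rfl⟩
      refine ⟨i, j, hij, ?_⟩
      change Ψ y ∈ arc (Ψ (v i)) (Ψ (v j))
      rw [harc]
      exact ⟨y, hy, rfl⟩
  have hcompl : S2 \ skeleton G (fun i => Ψ (v i)) = Ψ '' (S2 \ skeleton G v) := by
    rw [hskel, image_sdiff Ψ.injective, hS]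
  refine ⟨h.four_le, ?_, ?_, ?_, ?_, ?_, h.maximal, ?_⟩
  · intro i
    rw [← hS]
    exact ⟨v i, h.mem_sphere i, rfl⟩
  · exact fun i j hij => h.injective (Ψ.injective hij)
  · intro i j hij heq
    exact h.not_antipodal i j hij (Ψ.injective (heq.trans (hneg _).symm))
  · intro i j k l hij hkl hne x hx1 hx2
    change x ∈ arc (Ψ (v i)) (Ψ (v j)) at hx1
    change x ∈ arc (Ψ (v k)) (Ψ (v l)) at hx2
    rw [harc] at hx1 hx2
    obtain ⟨y, hy1, rfl⟩ := hx1
    obtain ⟨z, hz, hzy⟩ := hx2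
    rw [Ψ.injective hzy] at hz
    obtain ⟨m, hm1, hm2, hm3⟩ := h.edges_meet i j k l hij hkl hne y hy1 hz
    exact ⟨m, hm1, hm2, by rw [hm3]⟩
  · intro i j m hij hm
    change Ψ (v m) ∈ arc (Ψ (v i)) (Ψ (v j)) at hm
    rw [harc] at hm
    obtain ⟨y, hy, hye⟩ := hm
    rw [Ψ.injective hye] at hy
    exact h.vertex_edge i j m hij hy
  · rintro U ⟨x, hx, rfl⟩
    rw [hcompl] at hx
    obtain ⟨y, hy, rfl⟩ := hx
    obtain ⟨i, j, k, ⟨hf, a1, a2, a3, hcl⟩⟩ := h.faces _ ⟨y, hy, rfl⟩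
    refine ⟨i, j, k, ⟨⟨Ψ y, by rw [hcompl]; exact ⟨y, hy, rfl⟩, rfl⟩, a1, a2, a3, ?_⟩⟩
    change closure (connectedComponentIn (S2 \ skeleton G (fun i => Ψ (v i))) (Ψ y)) \
      connectedComponentIn (S2 \ skeleton G (fun i => Ψ (v i))) (Ψ y) =
      arc (Ψ (v i)) (Ψ (v j)) ∪ arc (Ψ (v j)) (Ψ (v k)) ∪ arc (Ψ (v k)) (Ψ (v i))
    rw [hcompl, ← Ψ.image_connectedComponentIn hy, ← Ψ.image_closure, ← image_sdiff Ψ.injective, hcl,
      image_union, image_union, harc, harc, harc]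

/-- the radial projection of a linear image of a shortest-path triangulation is a shortest-path
triangulation -/
lemma spt_linear {n : ℕ} {G : SimpleGraph (Fin n)} {v : Fin n → Fin 3 → ℝ} (h : IsSPT G v)
    (hR : R.det ≠ 0) : IsSPT G (fun i => radial (R.mulVec (v i))) := by
  have hunit : IsUnit R.det := isUnit_iff_ne_zero.mpr hR
  have h1 : R⁻¹ * R = 1 := Matrix.nonsing_inv_mul R hunit
  have h2 : R * R⁻¹ = 1 := Matrix.mul_nonsing_inv R hunit
  have hR' : (R⁻¹).det ≠ 0 := by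
    intro h0
    have h3 := congrArg Matrix.det h1
    rw [Matrix.det_mul, h0, zero_mul, Matrix.det_one] at h3
    exact zero_ne_one h3
  have hne : ∀ i, v i ≠ 0 := by
    intro i h0
    have := h.mem_sphere i
    rw [h0] at this
    simp [S2] at this
  have hPne : ∀ i, Psi R (v i) ≠ 0 := by
    intro i h0
    have h3 := nrm_Psi hR (v i)
    rw [h0, nrm_zero] at h3
    exact absurd h3 (nrm_pos (hne i)).ne
  have hmain := spt_transport h (PsiH hR hR' h1 h2) (by
      change Psi R '' S2 = S2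
      ext x
      constructor
      · rintro ⟨y, hy, rfl⟩
        exact (mem_S2 _).mpr ((nrm_Psi hR y).trans ((mem_S2 y).mp hy))
      · intro hx
        exact ⟨Psi R⁻¹ x, (mem_S2 _).mpr ((nrm_Psi hR' x).trans ((mem_S2 x).mp hx)),
          Psi_Psi hR' h2 x⟩) (fun x => Psi_neg x) (by
      intro i j
      change arc (Psi R (v i)) (Psi R (v j)) = Psi R '' arc (v i) (v j)
      ext x
      constructor
      · intro hx
        have h3 := arc_sub hR' (hPne i) (hPne j) hx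
        rw [Psi_Psi hR h1, Psi_Psi hR h1] at h3
        exact ⟨Psi R⁻¹ x, h3, Psi_Psi hR' h2 x⟩
      · rintro ⟨y, hy, rfl⟩
        exact arc_sub hR (hne i) (hne j) hy)
  have heq : (fun i => radial (R.mulVec (v i))) = fun i => (PsiH hR hR' h1 h2) (v i) := by
    funext i
    change radial (R.mulVec (v i)) = Psi R (v i)
    have h3 := (mem_S2 _).mp (h.mem_sphere i)
    unfold Psi radial
    rw [h3, one_mul]
    rfl
  rw [heq]
  exact hmain


/-- both orientations of the flip lemma -/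
lemma flip2 {n : ℕ} {G : SimpleGraph (Fin n)} {γ : ℝ → Fin n → Fin 3 → ℝ} (hm : IsMorph G γ)
    (hl : IsLongitudinal γ) (hs : ∀ i, γ 1 i 2 < 0) {i j k : Fin n} (hij : G.Adj i j)
    (hjk : G.Adj j k) (hki : G.Adj k i) (ε : ℝ) (hε : ε = 1 ∨ ε = -1)
    (h0 : 0 < ε * det3 (γ 0 i) (γ 0 j) (γ 0 k))
    (hN : ¬ (0 < ε * hA (γ 0 j) (γ 0 k) ∧ 0 < ε * hA (γ 0 k) (γ 0 i) ∧
      0 < ε * hA (γ 0 i) (γ 0 j))) :
    0 < ε * det3 (γ 1 i) (γ 1 j) (γ 1 k) := by
  have hanti : ∀ a b : Fin 3 → ℝ, hA a b = - hA b a := by intro a b; unfold hA; ring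
  have hdanti : ∀ a b c : Fin 3 → ℝ, det3 a c b = - det3 a b c := by
    intro a b c; unfold det3 hA; ring
  rcases hε with rfl | rfl
  · rw [one_mul] at h0 ⊢
    rw [one_mul, one_mul, one_mul] at hN
    exact flip hm hl hs hij hjk hki h0 hN
  · have h := flip hm hl hs hki.symm hjk.symm hij.symm (i := i) (j := k) (k := j)
      (by rw [hdanti]; linarith) (by
        rintro ⟨q1, q2, q3⟩
        refine hN ⟨?_, ?_, ?_⟩
        · rw [hanti] at q1; linarith
        · rw [hanti] at q3; linarith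
        · rw [hanti] at q2; linarith)
    rw [hdanti] at h
    linarith

/-- The general form of the obstruction. -/
theorem no_sink_gen (N : Fin 3 → ℝ) (w : Fin 12 → Fin 3 → ℝ) (ρ : Fin 12 → ℝ) (hρ : ∀ i, 0 < ρ i)
    (ε : ℝ) (hε : ε = 1 ∨ ε = -1)
    (hhA : ∀ i j : Fin 12, ε * hA (w i) (w j) = ρ i * ρ j * dR (Z3.cross (P i.val) (P j.val)) N)
    (hdet3 : ∀ i j k : Fin 12, 0 < Z3.dot (Z3.cross (P j.val) (P k.val)) (P i.val) →
      0 < ε * det3 (w i) (w j) (w k)) :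
    ¬ Sinkable G12 w := by
  rintro ⟨γ, hm, hl, h0, hs⟩
  obtain ⟨f, hf, hfN, lam, hlam, hp, hW⟩ := core N
  -- scaling factors at time 1
  have hsc : ∀ i : Fin 12, ∃ c : ℝ, 0 < c ∧ γ 1 i 0 = c * γ 0 i 0 ∧ γ 1 i 1 = c * γ 0 i 1 := by
    intro i
    obtain ⟨-, c, hc, h1, h2⟩ := hl.stays 1 (by simp) i
    exact ⟨c, hc, h1, h2⟩
  choose s hspos hs0 hs1 using hsc
  let u : ℕ → Fin 12 := fun n => Fin.ofNat 12 n
  have hu : ∀ n, n < 12 → (u n).val = n := fun n hn => by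
    simp only [u, Fin.ofNat, Fin.val_mk]; exact Nat.mod_eq_of_lt hn
  let t : Fin 12 → ℝ := fun i => s i * ρ i
  have htpos : ∀ i, 0 < t i := fun i => mul_pos (hspos i) (hρ i)
  let ζ : ℕ → ℝ := fun n => γ 1 (u n) 2 / t (u n)
  have hζ : ∀ n, ζ n < 0 := fun n => div_neg_of_neg_of_pos (hs _) (htpos _)
  -- each face in the certificate is positive at time 1
  have hpos : ∀ g, g < 20 → g ≠ f →
      0 < ∑ i ∈ Finset.range 12, ζ i * dR (cv g i) N := by
    intro g hg hgf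
    obtain ⟨h1, h2, h3, n1, n2, n3, hD⟩ := face_facts g hg
    obtain ⟨a1, a2, a3⟩ := face_adj g hg
    have ad1 : G12.Adj (u (F g).1) (u (F g).2.1) := by
      change adjB _ _ = true; rw [hu _ h1, hu _ h2]; exact a1
    have ad2 : G12.Adj (u (F g).2.1) (u (F g).2.2) := by
      change adjB _ _ = true; rw [hu _ h2, hu _ h3]; exact a2
    have ad3 : G12.Adj (u (F g).2.2) (u (F g).1) := by
      change adjB _ _ = true; rw [hu _ h3, hu _ h1]; exact a3
    have e1 : ε * hA (γ 0 (u (F g).2.1)) (γ 0 (u (F g).2.2)) =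
        ρ (u (F g).2.1) * ρ (u (F g).2.2) * dR (cv g (F g).1) N := by
      rw [h0, hhA, hu _ h2, hu _ h3, cv1]
    have e2 : ε * hA (γ 0 (u (F g).2.2)) (γ 0 (u (F g).1)) =
        ρ (u (F g).2.2) * ρ (u (F g).1) * dR (cv g (F g).2.1) N := by
      rw [h0, hhA, hu _ h3, hu _ h1, cv2 hg]
    have e3 : ε * hA (γ 0 (u (F g).1)) (γ 0 (u (F g).2.1)) =
        ρ (u (F g).1) * ρ (u (F g).2.1) * dR (cv g (F g).2.2) N := by
      rw [h0, hhA, hu _ h1, hu _ h2, cv3 hg]
    have r1 := hρ (u (F g).1); have r2 := hρ (u (F g).2.1); have r3 := hρ (u (F g).2.2)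
    have hdet : 0 < ε * det3 (γ 0 (u (F g).1)) (γ 0 (u (F g).2.1)) (γ 0 (u (F g).2.2)) := by
      rw [h0]
      refine hdet3 _ _ _ ?_
      rw [hu _ h1, hu _ h2, hu _ h3]
      exact hD
    have hN : ¬ (0 < ε * hA (γ 0 (u (F g).2.1)) (γ 0 (u (F g).2.2)) ∧
        0 < ε * hA (γ 0 (u (F g).2.2)) (γ 0 (u (F g).1)) ∧
        0 < ε * hA (γ 0 (u (F g).1)) (γ 0 (u (F g).2.1))) := by
      rintro ⟨q1, q2, q3⟩
      rw [e1] at q1; rw [e2] at q2; rw [e3] at q3
      exact disj hf hg (Ne.symm hgf) hfN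
        ⟨(pos_iff_pos_of_mul_pos q1).mp (mul_pos r2 r3),
          (pos_iff_pos_of_mul_pos q2).mp (mul_pos r3 r1),
          (pos_iff_pos_of_mul_pos q3).mp (mul_pos r1 r2)⟩
    have hfl := flip2 hm hl hs ad1 ad2 ad3 ε hε hdet hN
    rw [sum_face hg]
    have hA1 : ∀ i j, hA (γ 1 i) (γ 1 j) = s i * s j * hA (γ 0 i) (γ 0 j) := by
      intro i j; unfold hA; rw [hs0, hs0, hs1, hs1]; ring
    unfold det3 at hfl
    rw [hA1, hA1, hA1] at hfl
    have p1 := hspos (u (F g).1); have p2 := hspos (u (F g).2.1); have p3 := hspos (u (F g).2.2)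
    have t1 := htpos (u (F g).1); have t2 := htpos (u (F g).2.1); have t3 := htpos (u (F g).2.2)
    have key : ε * (γ 1 (u (F g).1) 2 * (s (u (F g).2.1) * s (u (F g).2.2) *
          hA (γ 0 (u (F g).2.1)) (γ 0 (u (F g).2.2))) +
        γ 1 (u (F g).2.1) 2 * (s (u (F g).2.2) * s (u (F g).1) *
          hA (γ 0 (u (F g).2.2)) (γ 0 (u (F g).1))) +
        γ 1 (u (F g).2.2) 2 * (s (u (F g).1) * s (u (F g).2.1) *
          hA (γ 0 (u (F g).1)) (γ 0 (u (F g).2.1)))) =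
        (t (u (F g).1) * t (u (F g).2.1) * t (u (F g).2.2)) *
        (ζ (F g).1 * dR (cv g (F g).1) N +
          ζ (F g).2.1 * dR (cv g (F g).2.1) N +
          ζ (F g).2.2 * dR (cv g (F g).2.2) N) := by
      calc _ = γ 1 (u (F g).1) 2 * (s (u (F g).2.1) * s (u (F g).2.2) *
            (ε * hA (γ 0 (u (F g).2.1)) (γ 0 (u (F g).2.2)))) +
          γ 1 (u (F g).2.1) 2 * (s (u (F g).2.2) * s (u (F g).1) *
            (ε * hA (γ 0 (u (F g).2.2)) (γ 0 (u (F g).1)))) +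
          γ 1 (u (F g).2.2) 2 * (s (u (F g).1) * s (u (F g).2.1) *
            (ε * hA (γ 0 (u (F g).1)) (γ 0 (u (F g).2.1)))) := by ring
        _ = _ := by
          rw [e1, e2, e3]
          have z1 : γ 1 (u (F g).1) 2 = ζ (F g).1 * t (u (F g).1) :=
            (div_mul_cancel₀ _ t1.ne').symm
          have z2 : γ 1 (u (F g).2.1) 2 = ζ (F g).2.1 * t (u (F g).2.1) :=
            (div_mul_cancel₀ _ t2.ne').symm
          have z3 : γ 1 (u (F g).2.2) 2 = ζ (F g).2.2 * t (u (F g).2.2) :=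
            (div_mul_cancel₀ _ t3.ne').symm
          rw [z1, z2, z3]
          simp only [t]
          ring
    rw [key] at hfl
    exact (pos_iff_pos_of_mul_pos hfl).mp (by positivity)
  have hsum : 0 < (lam.map (fun p => (p.2 : ℝ) *
      ∑ i ∈ Finset.range 12, ζ i * dR (cv p.1 i) N)).sum := by
    apply List.sum_pos
    · intro x hx
      rw [List.mem_map] at hx
      obtain ⟨p, hpl, rfl⟩ := hx
      obtain ⟨q1, q2, q3⟩ := hp p hpl
      have := hpos p.1 q2 q1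
      have q3' : (0:ℝ) < (p.2 : ℝ) := by exact_mod_cast q3
      positivity
    · simpa using hlam
  rw [sum_W] at hsum
  have : ∑ i ∈ Finset.range 12, ζ i * dR (W lam i) N ≤ 0 := by
    apply Finset.sum_nonpos
    intro i hi
    exact mul_nonpos_of_nonpos_of_nonneg (hζ i).le (hW i (Finset.mem_range.mp hi))
  linarith

lemma det3_lin (R : Matrix (Fin 3) (Fin 3) ℝ) (c : ℝ) (p q r : Z3) :
    det3 (R.mulVec (c • toR p)) (R.mulVec (c • toR q)) (R.mulVec (c • toR r)) =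
      R.det * (c ^ 3 * ((Z3.dot (Z3.cross q r) p : ℤ) : ℝ)) := by
  rw [Matrix.det_fin_three]
  simp only [det3, hA, Matrix.mulVec, dotProduct, Fin.sum_univ_three, Pi.smul_apply, smul_eq_mul,
    toR_0, toR_1, toR_2, Z3.dot, Z3.cross]
  push_cast
  ring

lemma hA_smul (a b : ℝ) (x y : Fin 3 → ℝ) : hA (a • x) (b • y) = a * b * hA x y := by
  simp only [hA, Pi.smul_apply, smul_eq_mul]; ring

lemma det3_smul (a b c : ℝ) (x y z : Fin 3 → ℝ) :
    det3 (a • x) (b • y) (c • z) = a * b * c * det3 x y z := by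
  simp only [det3, hA, Pi.smul_apply, smul_eq_mul]; ring

lemma dR_neg_right (p : Z3) (N : Fin 3 → ℝ) : dR p (-N) = - dR p N := by
  simp only [dR, Pi.neg_apply]; ring

/-- No positive radial rescaling of a linear image of the example is sinkable. -/
theorem no_sink_linear (R : Matrix (Fin 3) (Fin 3) ℝ) (hR : R.det ≠ 0) (r : Fin 12 → ℝ)
    (hr : ∀ i, 0 < r i) : ¬ Sinkable G12 (fun i => r i • R.mulVec (v12 i)) := by
  have hc := c12_pos
  have hv : ∀ i, R.mulVec (v12 i) = R.mulVec (c12 • toR (P i.val)) := fun i => rfl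
  rcases lt_or_gt_of_ne hR with hneg | hpos
  · refine no_sink_gen (-(rowCross R)) _ (fun i => r i * c12) (fun i => mul_pos (hr i) hc) (-1)
      (Or.inr rfl) ?_ ?_
    · intro i j
      rw [hA_smul, hv, hv, hA_rot, dR_neg_right]
      ring
    · intro i j k h
      rw [det3_smul, hv, hv, hv, det3_lin]
      have h' : (0:ℝ) < ((Z3.dot (Z3.cross (P j.val) (P k.val)) (P i.val) : ℤ) : ℝ) := by
        exact_mod_cast h
      have h1 := hr i; have h2 := hr j; have h3 := hr k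
      have h4 : 0 < r i * r j * r k * ((-R.det) * (c12 ^ 3 *
          ((Z3.dot (Z3.cross (P j.val) (P k.val)) (P i.val) : ℤ) : ℝ))) := by
        have : 0 < -R.det := by linarith
        positivity
      linarith
  · refine no_sink_gen (rowCross R) _ (fun i => r i * c12) (fun i => mul_pos (hr i) hc) 1
      (Or.inl rfl) ?_ ?_
    · intro i j
      rw [hA_smul, hv, hv, hA_rot]
      ring
    · intro i j k h
      rw [det3_smul, hv, hv, hv, det3_lin]
      have h' : (0:ℝ) < ((Z3.dot (Z3.cross (P j.val) (P k.val)) (P i.val) : ℤ) : ℝ) := by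
        exact_mod_cast h
      have h1 := hr i; have h2 := hr j; have h3 := hr k
      have h4 : 0 < r i * r j * r k * (R.det * (c12 ^ 3 *
          ((Z3.dot (Z3.cross (P j.val) (P k.val)) (P i.val) : ℤ) : ℝ))) := by positivity
      linarith

lemma image_ne (R : Matrix (Fin 3) (Fin 3) ℝ) (hR : R.det ≠ 0) (i : Fin 12) :
    R.mulVec (v12 i) ≠ 0 := by
  intro h
  have h1 : v12 i = 0 := Matrix.eq_zero_of_mulVec_eq_zero hR h
  have h2 := spt12.mem_sphere i
  rw [h1] at h2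
  simp [S2] at h2

/-- **Stronger form of the disproof.**  There is a shortest-path triangulation `v` of the sphere
with 12 vertices such that

* no rotation `R ∈ SO(3)` makes it sinkable (the negated form of the question), and moreover
* for every linear automorphism `R` of space, of positive or negative determinant, the image of `v`
  under `R` followed by the radial projection to the sphere is again a shortest-path triangulation
  and is not sinkable.
-/
theorem result : ∃ (G : SimpleGraph (Fin 12)) (v : Fin 12 → Fin 3 → ℝ), IsSPT G v ∧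
    (¬ ∃ R ∈ Matrix.specialOrthogonalGroup (Fin 3) ℝ,
      (∀ i, NonPolar (R.mulVec (v i))) ∧ Sinkable G (fun i => R.mulVec (v i))) ∧
    ∀ R : Matrix (Fin 3) (Fin 3) ℝ, R.det ≠ 0 →
      IsSPT G (fun i => radial (R.mulVec (v i))) ∧
        ¬ Sinkable G (fun i => radial (R.mulVec (v i))) := by
  refine ⟨G12, v12, spt12, ?_, ?_⟩
  · rintro ⟨R, hR, -, hS⟩
    rw [Matrix.mem_specialOrthogonalGroup_iff] at hR
    exact no_sink R hR.2 hS
  · intro R hR
    refine ⟨spt_linear spt12 hR, ?_⟩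
    exact no_sink_linear R hR (fun i => (Real.sqrt ((R.mulVec (v12 i)) 0 ^ 2 +
      (R.mulVec (v12 i)) 1 ^ 2 + (R.mulVec (v12 i)) 2 ^ 2))⁻¹)
      (fun i => inv_pos.mpr (Real.sqrt_pos.mpr (sq_pos_of_ne (image_ne R hR i))))

end Pool.Agent.Results.MP_bf58c1_co.NoLinearImage
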